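import Pool.Agent.N343.LT.Stm

/-! Project LT: the Laplace expansion, averaged over all permutations. -/

set_option autoImplicit false

namespace Pool.Agent.N591.LT.LAP

open Finset

theorem key {R : Type} [CommRing R] {α β : Type} [Fintype α] [DecidableEq α] [Fintype β]
    [DecidableEq β] (M : Matrix (α ⊕ β) (α ⊕ β) R) (ρ₁ : Equiv.Perm α) (ρ₂ : Equiv.Perm β) :
    ∑ τ : Equiv.Perm (α ⊕ β), (((Equiv.Perm.sign τ : ℤˣ) : ℤ) : R) *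
      ((((Equiv.Perm.sign ρ₁ : ℤˣ) : ℤ) : R) * ∏ a, M (τ (Sum.inl (ρ₁ a))) (Sum.inl a)) *
      ((((Equiv.Perm.sign ρ₂ : ℤˣ) : ℤ) : R) * ∏ b, M (τ (Sum.inr (ρ₂ b))) (Sum.inr b)) =
    M.det := by
  rw [Matrix.det_apply']
  conv_rhs => rw [← Equiv.sum_comp (Equiv.mulRight (Equiv.Perm.sumCongr ρ₁ ρ₂))]
  refine sum_congr rfl fun τ _ => ?_
  rw [Fintype.prod_sum_type]
  have e : (((Equiv.Perm.sign ((Equiv.mulRight (Equiv.Perm.sumCongr ρ₁ ρ₂)) τ) : ℤˣ) : ℤ) : R) =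
      (((Equiv.Perm.sign τ : ℤˣ) : ℤ) : R) * ((((Equiv.Perm.sign ρ₁ : ℤˣ) : ℤ) : R) *
        (((Equiv.Perm.sign ρ₂ : ℤˣ) : ℤ) : R)) := by
    rw [Equiv.coe_mulRight, Equiv.Perm.sign_mul, Equiv.Perm.sign_sumCongr]
    push_cast
    rfl
  rw [e]
  have e1 : ∀ a, (Equiv.mulRight (Equiv.Perm.sumCongr ρ₁ ρ₂)) τ (Sum.inl a) =
      τ (Sum.inl (ρ₁ a)) := fun a => rfl
  have e2 : ∀ b, (Equiv.mulRight (Equiv.Perm.sumCongr ρ₁ ρ₂)) τ (Sum.inr b) =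
      τ (Sum.inr (ρ₂ b)) := fun b => rfl
  simp only [e1, e2]
  ring

theorem main : Pool.Agent.N343.LT.S_LAP := by
  intro R _ α β _ _ _ _ M
  have e : ∀ τ : Equiv.Perm (α ⊕ β), (((Equiv.Perm.sign τ : ℤˣ) : ℤ) : R) *
      (M.submatrix (fun a => τ (Sum.inl a)) Sum.inl).det *
      (M.submatrix (fun b => τ (Sum.inr b)) Sum.inr).det =
      ∑ ρ₁ : Equiv.Perm α, ∑ ρ₂ : Equiv.Perm β, (((Equiv.Perm.sign τ : ℤˣ) : ℤ) : R) *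
      ((((Equiv.Perm.sign ρ₁ : ℤˣ) : ℤ) : R) * ∏ a, M (τ (Sum.inl (ρ₁ a))) (Sum.inl a)) *
      ((((Equiv.Perm.sign ρ₂ : ℤˣ) : ℤ) : R) * ∏ b, M (τ (Sum.inr (ρ₂ b))) (Sum.inr b)) := by
    intro τ
    have e1 : (((Equiv.Perm.sign τ : ℤˣ) : ℤ) : R) *
        (M.submatrix (fun a => τ (Sum.inl a)) Sum.inl).det =
        ∑ ρ₁ : Equiv.Perm α, (((Equiv.Perm.sign τ : ℤˣ) : ℤ) : R) *
          ((((Equiv.Perm.sign ρ₁ : ℤˣ) : ℤ) : R) * ∏ a, M (τ (Sum.inl (ρ₁ a))) (Sum.inl a)) := by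
      rw [Matrix.det_apply', mul_sum]
      rfl
    rw [e1, Matrix.det_apply', sum_mul_sum]
    rfl
  rw [sum_congr rfl fun τ _ => e τ, sum_comm, sum_congr rfl fun ρ₁ _ => sum_comm,
    sum_congr rfl fun ρ₁ _ => sum_congr rfl fun ρ₂ _ => key M ρ₁ ρ₂]
  rw [sum_const, sum_const, card_univ, card_univ, Fintype.card_perm, Fintype.card_perm,
    nsmul_eq_mul, nsmul_eq_mul]
  push_cast
  ring

end Pool.Agent.N591.LT.LAP
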